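import Pool.Agent.TDLC.Final

/-!
# Closed contraction groups in weakly decomposable t.d.l.c. groups are trivial

The definitions are in `Pool.Agent.TDLC.Defs`.
-/

namespace Pool.Agent.Results.MP_5e309c_al.ClosedContractionTrivial

open Pool.TDLC

universe u v

/-- Let `G` be a totally disconnected locally compact group with a non-degenerate faithful weakly
decomposable action `ρ` on a Boolean algebra `A`, and let `g` be in `G`. If `nub(g) = {1}`, then
`con(g) = {1}`; equivalently, if `con(g)` is closed, then `con(g) = {1}`. -/
theorem result : ∀ (G : Type u) [Group G] [TopologicalSpace G] [IsTopologicalGroup G]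
    [LocallyCompactSpace G] [T2Space G] [TotallyDisconnectedSpace G]
    (A : Type v) [BooleanAlgebra A] (ρ : G →* (A ≃o A)),
    WeaklyDecomposable ρ → ∀ g : G,
      (nub g = {1} → con g = {1}) ∧ (IsClosed (con g) → con g = {1}) := by
  intro G _ _ _ _ _ _ A _ ρ h g
  exact ⟨fun hn => con_trivial h (closed_of_nub hn), fun hC => con_trivial h hC⟩

end Pool.Agent.Results.MP_5e309c_al.ClosedContractionTrivial
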